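import Pool.Agent.H23R2.Det
import Pool.Agent.Q91.PP.Root

/-!
# The Dennis trace of invertible matrices over `ℤ[G]` for groups of piecewise projective
# homeomorphisms

Let `G` be a group of increasing piecewise projective homeomorphisms of the line, for example
Thompson's group `F`, a group of piecewise linear homeomorphisms, one of Monod's non-amenable
groups without free subgroups, or a group of Lodha and Moore; more generally, let `G` be a
torsion-free group with finitely many homomorphisms to the group of such homeomorphisms and a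
finite-dimensional representation in characteristic zero which together separate the elements of
`G`.  For every invertible matrix `A` over `ℤ[G]` there is `γ ∈ G` such that every Hochschild
`1`-cocycle on `ℤ[G]` with values in an abelian group in which no nonzero element is divisible by
all but finitely many primes takes the same value on the Dennis traces of `A` and of `γ` in
`HH₁(ℤ[G])`.
-/

set_option autoImplicit false

namespace Pool.Agent.Results.MP_8f66f0_al.DennisTraceProjective

open Pool.Agent.H23R2

universe u1 u3 u5 u6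

/-- `f` is piecewise projective: there are finitely many real matrices with nonzero determinant
such that `f` is given by one of the corresponding maps `z ↦ (α z + β) / (γ z + δ)` near `-∞` and
to the right of each point of the line. -/
def IsPiecewiseProjective (f : ℝ → ℝ) : Prop :=
  ∃ S : Finset (Matrix (Fin 2) (Fin 2) ℝ), (∀ M ∈ S, M.det ≠ 0) ∧
    (∃ M ∈ S, ∃ b : ℝ, ∀ z < b, f z * (M 1 0 * z + M 1 1) = M 0 0 * z + M 0 1) ∧
    ∀ a : ℝ, ∃ M ∈ S, ∃ b > a, ∀ z, a < z → z < b →
      f z * (M 1 0 * z + M 1 1) = M 0 0 * z + M 0 1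

lemma key {G : Type u1} [Group G] {I : Type*} [Fintype I] [DecidableEq I] {S : Finset G}
    {A B : I → I → G → ℤ} (h : InvPair A B S) {p : ℕ}
    (hgood : GoodPrime (Subgroup.closure (S : Set G)) p) {M : Type u3} [AddCommGroup M]
    {F : G → G → M} (hF : IsCoc F) : ∃ m : M, DsumZ A B S F = F 1 (gamS A B S) + p • m := by
  classical
  let F' : Subgroup.closure (S : Set G) → Subgroup.closure (S : Set G) → M :=
    fun w x => F w.1 x.1
  have hF' : IsCoc F' := fun w x y => hF w.1 x.1 y.1
  obtain ⟨m, hm⟩ := DsumZ_main h.res hgood hF'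
  refine ⟨m, ?_⟩
  have h2 : DsumZ A B S F =
      (AddMonoidHom.id M) (DsumZ (resc S A) (resc S B) (resS S) F') :=
    (DsumZ_res A B F' (AddMonoidHom.id M) F (fun w x => rfl)).symm
  rw [h2, hm]
  rfl

theorem result {G : Type u1} [Group G] (htf : ∀ g : G, ∀ m : ℕ, 0 < m → g ^ m = 1 → g = 1)
    {ι : Type u6} [Finite ι] (ρ : ι → G →* (ℝ ≃o ℝ))
    (hρ : ∀ (i : ι) (x : G), IsPiecewiseProjective (ρ i x))
    {K : Type u5} [Field K] [CharZero K] (N : ℕ) (φ : G →* GL (Fin N) K)
    (hφ : ∀ g : G, φ g = 1 → (∀ i : ι, ρ i g = 1) → g = 1)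
    {n : ℕ} (A : (Matrix (Fin n) (Fin n) (MonoidAlgebra ℤ G))ˣ) :
    ∃ γ : G, ∀ (M : Type u3) [AddCommGroup M],
        (∀ x : M, x ≠ 0 → {p : ℕ | p.Prime ∧ ¬ ∃ y : M, p • y = x}.Infinite) →
      ∀ f : G → G → M, (∀ x y z : G, f (x * y) z - f x (y * z) + f (z * x) y = 0) →
        (∑ i, ∑ j, ((A⁻¹).val i j).coeff.sum fun g b =>
            (A.val j i).coeff.sum fun h a => (b * a) • f g h) = f γ⁻¹ γ := by
  classical
  set S : Finset G := supp A.val ∪ supp (A⁻¹).val with hS
  have hA : ∀ i j g, (A.val i j).coeff g ≠ 0 → g ∈ S := fun i j g hg =>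
    Finset.mem_union_left _ (mem_supp _ i j g hg)
  have hB : ∀ i j g, ((A⁻¹).val i j).coeff g ≠ 0 → g ∈ S := fun i j g hg =>
    Finset.mem_union_right _ (mem_supp _ i j g hg)
  have hpair : InvPair (cf A.val) (cf (A⁻¹).val) S := invPair_units A
  refine ⟨gamS (cf A.val) (cf (A⁻¹).val) S, ?_⟩
  set H : Subgroup G := Subgroup.closure (S : Set G) with hH
  have hfg : Group.FG H := (Group.fg_iff_subgroup_fg H).2 ⟨S, rfl⟩
  have hbad := Pool.Agent.Q91.PP.good_primes (H := H)
    (by
      intro g m hm hg
      apply Subtype.ext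
      exact htf g.1 m hm (by simpa using congrArg Subtype.val hg))
    (fun i => (ρ i).comp H.subtype) (fun i x => hρ i x) (φ.comp H.subtype)
    (by
      intro g h1 h2
      exact Subtype.ext (hφ g.1 h1 h2))
  intro M _ hM f hf
  by_contra hne
  have hne' := sub_ne_zero.2 hne
  obtain ⟨p, ⟨hp, hpx⟩, hpb⟩ := ((hM _ hne').sdiff hbad).nonempty
  have hgood : GoodPrime H p := by
    by_contra hc
    exact hpb ⟨hp, hc⟩
  obtain ⟨m, hm⟩ := key hpair hgood (isCoc_of_hochschild f hf)
  apply hpx
  refine ⟨m, ?_⟩
  have h1 := pairing_eq f (A⁻¹).val A.val S hA hB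
  unfold pairing at h1
  rw [h1, hm, mul_one, add_sub_cancel_left]

end Pool.Agent.Results.MP_8f66f0_al.DennisTraceProjective
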