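import Pool.Agent.Q202.KT.Inf

/-!
# The odd Chern character of `K₁(R[Γ])` on classes inflated from a quotient

Let `Γ` be a group, for example a torsion-free one, `R` a ring, for example `ℤ`, and `π : Γ → Q` a
homomorphism of groups. The components of the integral odd Chern character of `K₁(R[Γ])` at the
conjugacy classes `C` of `Γ` pair with the traces of `R[Γ]` which are concentrated on `C` and with the
group cocycles of the centralisers. If `Γ` is torsion-free and `Wh(Γ) = 0`, then they vanish on
`K₁(ℤ[Γ])`, for the classes `C ≠ {1}`, and for `C = {1}` in degrees `≥ 3`. We consider the cocycles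
which are inflated from `Q`, with an arbitrary trace of `R[Γ]`; we make no assumption on the elements
of the classes `C`, they may for example lie in divisible subgroups of the kernel of `π`.

The proof applies the coaction `R[Γ] → (R[Γ])[Q]`, `γ ↦ γ π(γ)`, and the theorems on the group ring of
`Q` with coefficients in the noncommutative ring `R[Γ]` (library `Pool.Agent.W647`). In the same way we
treat the rings graded by `Q`, for example crossed products.
-/

set_option autoImplicit false

namespace Pool.Agent.Results.MP_8f66f0_al.InflatedClasses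

open Pool.Agent.W647.HX1 Pool.Agent.Q202.KT

universe u1 u2 u3 u4 u5 u6

/-- Every value of `x` is divisible by `N`, for all `N ≥ 1` such that `Q` has no element of order `p`
for the primes `p ∣ N`. -/
def DivisibleAway (Q : Type u1) [Group Q] {M : Type u2} [AddCommGroup M] (x : M) : Prop :=
  ∀ N : ℕ, N ≠ 0 → (∀ p : ℕ, p.Prime → p ∣ N → ∀ y : Q, orderOf y ≠ p) → ∃ y : M, x = N • y

/-- Let `g ∈ Q`, let `t y` conjugate `y` to `g` for all conjugates `y` of `g`, and let `c` be an
`A`-valued class cocycle of `Q` for `g` of degree `2 k + 1`.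

(1) Let `π : Γ → Q` be a homomorphism, `T` a biadditive map on `R[Γ] × A` with
`T (x y, a) = T (y x, a)`, `u` an invertible matrix over `R[Γ]` with inverse `v`; `u_q` is the part of
`u` over `q ∈ Q`, and
`τ = ∑ T (tr (v_{q 0} u_{q 1} v_{q 2} ⋯ u_{q (2 k + 1)}), c (t, t q₀, …, t q₀ ⋯ q_{2 k}))`, the sum over
all `q ∈ Q ^ (2 k + 2)` whose product `y` is conjugate to `g`, `t = t y`.
(a) If `g` has finite order and `k ≥ 1`, then `k! τ` is divisible by all `N` which are prime to the
orders of the elements of `Q`. If moreover `Q` is torsion-free and `M` has no nonzero elements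
divisible by all `N ≥ 1`, then `k! τ = 0`.
(b) Let `H` be a subgroup of `Q` which contains the images of the supports of `u` and `v`, `p` a prime,
and `b` such that no element of `H` conjugate to `g` is a `p ^ (b + 1)`-th power in `H`. Then
`k! p ^ (2 b) τ` is divisible by all powers of `p`.

(2) The same for the rings `S` graded by `Q`, the traces `T` of `S`, and the homogeneous components of
invertible matrices over `S`. -/
theorem result (Q : Type u1) [Group Q] (A : Type u2) [AddCommGroup A] (M : Type u3)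
    [AddCommGroup M] (d : Type u4) [Fintype d] [DecidableEq d] (g : Q) (t : Q → Q)
    (ht : ∀ y, IsConj y g → t y * y * (t y)⁻¹ = g) (k : ℕ)
    (c : (Fin (2 * k + 1 + 1) → Q) → A) (hc : IsClassCoc g c) :
    (∀ (Γ : Type u5) [Group Γ] (π : Γ →* Q) (R : Type u6) [Ring R]
      (T : MonoidAlgebra R Γ →+ A →+ M), (∀ x y, T (x * y) = T (y * x)) →
      ∀ u v : Matrix d d (MonoidAlgebra R Γ), u * v = 1 → v * u = 1 →
      (IsOfFinOrder g → 1 ≤ k →
        DivisibleAway Q (k.factorial •
          odTau T g t c (fun q => v.map (part π q)) (fun q => u.map (part π q))) ∧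
        ((∀ y : Q, IsOfFinOrder y → y = 1) →
          (∀ x : M, (∀ N : ℕ, N ≠ 0 → ∃ y, x = N • y) → x = 0) →
          k.factorial •
            odTau T g t c (fun q => v.map (part π q)) (fun q => u.map (part π q)) = 0)) ∧
      (∀ H : Subgroup Q, (∀ i j s, (u i j).coeff s ≠ 0 → π s ∈ H) →
        (∀ i j s, (v i j).coeff s ≠ 0 → π s ∈ H) → ∀ (p b : ℕ), p.Prime →
        (∀ y ∈ H, IsConj y g → ∀ x ∈ H, x ^ p ^ (b + 1) ≠ y) → ∀ m : ℕ, ∃ y : M,
          (k.factorial * p ^ (2 * b)) •
            odTau T g t c (fun q => v.map (part π q)) (fun q => u.map (part π q)) =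
              p ^ m • y)) ∧
    (∀ (S : Type u5) [Ring S] [DecidableEq Q] (𝒮 : Q → AddSubgroup S) [DirectSum.Decomposition 𝒮],
      (1 : S) ∈ 𝒮 1 → (∀ q r : Q, ∀ x ∈ 𝒮 q, ∀ y ∈ 𝒮 r, x * y ∈ 𝒮 (q * r)) →
      ∀ T : S →+ A →+ M, (∀ x y, T (x * y) = T (y * x)) →
      ∀ u v : Matrix d d S, u * v = 1 → v * u = 1 →
      (IsOfFinOrder g → 1 ≤ k →
        DivisibleAway Q (k.factorial • odTau T g t c (gc 𝒮 v) (gc 𝒮 u))) ∧
      (∀ H : Subgroup Q, (∀ s, gc 𝒮 u s ≠ 0 → s ∈ H) → (∀ s, gc 𝒮 v s ≠ 0 → s ∈ H) →
        ∀ (p b : ℕ), p.Prime → (∀ y ∈ H, IsConj y g → ∀ x ∈ H, x ^ p ^ (b + 1) ≠ y) →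
        ∀ m : ℕ, ∃ y : M,
          (k.factorial * p ^ (2 * b)) • odTau T g t c (gc 𝒮 v) (gc 𝒮 u) = p ^ m • y)) := by
  refine ⟨?_, ?_⟩
  · intro Γ _ π R _ T hT u v huv hvu
    refine ⟨fun hg hk => ?_, fun H hu hv p b hp hroot m => ?_⟩
    · have h1 : DivisibleAway Q (k.factorial •
          odTau T g t c (fun q => v.map (part π q)) (fun q => u.map (part π q))) :=
        fun N hN hp => odd_fin π T hT hg ht (by omega) hc v u hvu huv N hN hp
      refine ⟨h1, fun hQ hM => hM _ fun N hN => h1 N hN ?_⟩
      intro p hp _ y hy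
      have h5 : IsOfFinOrder y := orderOf_pos_iff.1 (hy ▸ hp.pos)
      have h6 := hQ y h5
      rw [h6, orderOf_one] at hy
      exact hp.one_lt.ne hy
    · exact odd_height π T hT ht hc v u hvu huv H hv hu hp b hroot m
  · intro S _ _ 𝒮 _ h1 hmul T hT u v huv hvu
    refine ⟨fun hg hk N hN hp => ?_, fun H hu hv p b hp hroot m => ?_⟩
    · exact graded_odd 𝒮 h1 hmul T hT hg ht (by omega) hc v u hvu huv N hN hp
    · exact graded_height 𝒮 h1 hmul T hT ht hc v u hvu huv H hv hu hp b hroot m

end Pool.Agent.Results.MP_8f66f0_al.InflatedClasses
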