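import Pool.Agent.H23R2.Odd.Sub
import Pool.Agent.Q91.PP.Bad

/-!
# Odd cyclic cocycles on integral group rings of groups of piecewise projective homeomorphisms

Let `G` be a group of increasing piecewise projective homeomorphisms of the line, for example
Thompson's group `F`, a group of piecewise linear homeomorphisms, one of Monod's non-amenable
groups without free subgroups, or a group of Lodha and Moore; more generally, let `G` be a
torsion-free group with finitely many homomorphisms to the group of such homeomorphisms and a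
finite-dimensional representation in characteristic zero which together separate the elements of
`G`.  For every invertible matrix `u` over `ℤ[G]` there is `γ ∈ G` such that *every* cycle of odd
dimension over `ℤ[G]`, with values in an abelian group `M` in which no nonzero element is divisible
by all but finitely many primes (for example `M = ℤ`), takes the same value on `u` and on `γ`.
-/

set_option autoImplicit false

namespace Pool.Agent.Results.MP_8f66f0_al.PiecewiseProjective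

open Pool.Agent.H23R2.Ch Pool.Agent.H23R2 Pool.Agent.H23R2.Odd

universe u1 u2 u3 u4 u5 u6

/-- `f` is piecewise projective: there are finitely many real matrices with nonzero determinant
such that `f` is given by one of the corresponding maps `z ↦ (α z + β) / (γ z + δ)` near `-∞` and
to the right of each point of the line. -/
def IsPiecewiseProjective (f : ℝ → ℝ) : Prop :=
  ∃ S : Finset (Matrix (Fin 2) (Fin 2) ℝ), (∀ M ∈ S, M.det ≠ 0) ∧
    (∃ M ∈ S, ∃ b : ℝ, ∀ z < b, f z * (M 1 0 * z + M 1 1) = M 0 0 * z + M 0 1) ∧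
    ∀ a : ℝ, ∃ M ∈ S, ∃ b > a, ∀ z, a < z → z < b →
      f z * (M 1 0 * z + M 1 1) = M 0 0 * z + M 0 1

theorem result {G : Type u1} [Group G] (htf : ∀ g : G, ∀ m : ℕ, 0 < m → g ^ m = 1 → g = 1)
    {ι : Type u6} [Finite ι] (ρ : ι → G →* (ℝ ≃o ℝ))
    (hρ : ∀ (i : ι) (x : G), IsPiecewiseProjective (ρ i x))
    {K : Type u5} [Field K] [CharZero K] (N : ℕ) (φ : G →* GL (Fin N) K)
    (hφ : ∀ g : G, φ g = 1 → (∀ i : ι, ρ i g = 1) → g = 1)
    {r : Type u2} [Fintype r] [DecidableEq r]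
    (u v : Matrix r r (MonoidAlgebra ℤ G)) (huv : u * v = 1) (hvu : v * u = 1) :
    ∃ γ : G, ∀ (M : Type u3) [AddCommGroup M],
        (∀ x : M, x ≠ 0 → {p : ℕ | p.Prime ∧ ¬ ∃ y : M, p • y = x}.Infinite) →
      ∀ (Ω : Type u4) [Ring Ω] (𝒜 : ℕ → Submodule ℤ Ω) [GradedAlgebra 𝒜]
        (δ : Ω →ₗ[ℤ] Ω) (T : Ω →ₗ[ℤ] M) (n : ℕ), IsCycle (2 * n + 1) 𝒜 δ T →
      ∀ (σ : MonoidAlgebra ℤ G →ₐ[ℤ] Ω), (∀ a, σ a ∈ 𝒜 0) →
        T (v.map σ * (u.map σ).map δ * ((v.map σ).map δ * (u.map σ).map δ) ^ n).trace =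
          T (σ (MonoidAlgebra.single γ⁻¹ 1) * δ (σ (MonoidAlgebra.single γ 1)) *
            (δ (σ (MonoidAlgebra.single γ⁻¹ 1)) * δ (σ (MonoidAlgebra.single γ 1))) ^ n) := by
  obtain ⟨γ, _, hγ⟩ := main_sub u v huv hvu
  refine ⟨γ, ?_⟩
  set H := supGrp u v with hH
  have : Group.FG H := (Group.fg_iff_subgroup_fg H).2 (supGrp_fg u v)
  have hf1 : (⋃ i : ι, {p : ℕ | p.Prime ∧ ∃ g : H, ((ρ i).comp H.subtype) g ≠ 1 ∧
      ∀ k : ℕ, ∃ x : H, x ^ p ^ k = g}).Finite :=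
    Set.finite_iUnion fun i => Pool.Agent.Q91.PP.pp_bad ((ρ i).comp H.subtype) fun x => hρ i x
  have hf2 := Pool.Agent.Q91.PP.lin_bad (φ.comp H.subtype)
  have hfin := hf1.union hf2
  set B := (⋃ i : ι, {p : ℕ | p.Prime ∧ ∃ g : H, ((ρ i).comp H.subtype) g ≠ 1 ∧
      ∀ k : ℕ, ∃ x : H, x ^ p ^ k = g}) ∪ {p : ℕ | p.Prime ∧ ∃ g : H,
      (∀ k : ℕ, ∃ x : H, x ^ p ^ k = g) ∧ ∀ E : ℕ, 0 < E → (φ.comp H.subtype) g ^ E ≠ 1} with hB
  intro M _ hM Ω _ 𝒜 _ δ T n hcyc σ hσ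
  refine hγ {p : ℕ | p.Prime ∧ p ∉ B} ?_ M ?_ Ω 𝒜 δ T n hcyc σ hσ ?_
  · intro p hp
    exact ⟨hp.1, fun g _ hg => htf g p hp.1.pos hg⟩
  · intro x hx
    apply ((hM x hx).sdiff hfin).mono
    rintro p ⟨⟨hp, hpx⟩, hpB⟩
    exact ⟨⟨hp, hpB⟩, hpx⟩
  · rintro g hg ⟨p, ⟨hp, hpB⟩, hroot⟩
    exfalso
    obtain ⟨x0, hx0, hx0g⟩ := hroot 0
    have hgH : g ∈ H := by
      rw [← hx0g]
      exact Subgroup.pow_mem _ hx0 _
    have hroot' : ∀ k : ℕ, ∃ x : H, x ^ p ^ k = ⟨g, hgH⟩ := by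
      intro k
      obtain ⟨x, hx, hxg⟩ := hroot k
      exact ⟨⟨x, hx⟩, Subtype.ext (by simpa using hxg)⟩
    have h1 : ∀ i : ι, ρ i g = 1 := by
      intro i
      by_contra hc
      exact hpB (Or.inl (Set.mem_iUnion.2 ⟨i, hp, ⟨g, hgH⟩, hc, hroot'⟩))
    have h2 : ∃ E : ℕ, 0 < E ∧ φ g ^ E = 1 := by
      by_contra hc
      push Not at hc
      exact hpB (Or.inr ⟨hp, ⟨g, hgH⟩, hroot', hc⟩)
    obtain ⟨E, hE, h3⟩ := h2
    apply hg
    apply htf g E hE
    apply hφ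
    · rw [map_pow, h3]
    · intro i
      rw [map_pow, h1 i, one_pow]

end Pool.Agent.Results.MP_8f66f0_al.PiecewiseProjective
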