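import Pool.Agent.Q143.KZ.WhT
import Pool.Agent.Q143.KZ.Van
import Pool.Agent.Y477.IW.GP

/-!
Whitehead groups of semidirect products with equivariant retractions.

For a ring `R` and a group `G` let `Wh(R; G)` be the quotient of `K_1(R[G])` by the subgroup
generated by the classes of the units `u g`, `u` a unit of `R`, `g` in `G`; for `R = ℤ` this is the
Whitehead group `Wh(G)`. `Γ` is a group which acts on a set `X` with finite point stabilizers and
on a group `N`; `e_S` (`S ⊆ X`) are endomorphisms of `N` with `e_S e_T = e_{S ∩ T}`,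
`γ e_S = e_{γ S} γ`, `e_∅` trivial, and each element of `N` is fixed by some `e_S`, `S` finite.
For instance `N` can be the graph product of copies of any group `P` over an invariant graph with
vertex set `X` (for the complete graph on `X = Γ` the group `N ⋊ Γ` is the restricted wreath
product of `P` and `Γ`).

(1) Vanishing: if `Γ` is torsion-free and `Wh(R; N ⋊ Γ) = 0`, then `Wh(R; N) = 0`. More generally,
if each element of `Wh(R; N)` becomes in `Wh(R; N ⋊ Γ)` the image of an element of `Wh(R; Γ)`, then
all elements of `Wh(R; N)` come from the trivial group.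

(2) The coinvariants of `Wh(R; N)` embed in `Wh(R; N ⋊ Γ)` modulo `Wh(R; Γ)`, up to the orders of
the finite subgroups of `Γ`; for torsion-free `Γ` the parts of `Wh(R; N)` belonging to different
orbits of finite subsets of `X` are independent in `Wh(R; N ⋊ Γ)` modulo `Wh(R; Γ)`; and the kernel
of every natural transformation from a functor `H` to `Wh(R; -)` is, on the part of `H(N ⋊ Γ)` which
comes from `Γ` and the parts `N_S`, `S ∈ C`, generated by the kernels for `Γ` and for the `N_S`, up
to the orders of the finite subgroups of `Γ`.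

(3) A kernel formula without conditions on the stabilizers and on `e_∅`, with the groups
`N_S ⋊ Γ_S`.

(4) The graph products have such retractions.
-/

namespace Pool.Agent.Results.MP_8f66f0_al.WhiteheadRetractions

open CategoryTheory Pool.Agent.Y483 Pool.Agent.Y483.PW Pool.Agent.Y483.PI Pool.Agent.Y477.IW
  Pool.Agent.Q143.KZ
  Pool.Agent.Q143.Wh

theorem result :
    (∀ (R : Type) [Ring R] (Γ X N : Type) [Group Γ] [MulAction Γ X] [Group N]
      (φ : Γ →* MulAut N) (us : USupp φ X),
      (∀ v : X, Finite (MulAction.stabilizer Γ v)) →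
      (((∀ g : Γ, g ≠ 1 → ¬ IsOfFinOrder g) →
        ((∀ z : WhG R (N ⋊[φ] Γ), z = 0) → ∀ x : WhG R N, x = 0) ∧
        ((∀ x : WhG R N, ∃ y : WhG R Γ,
            whMap R (SemidirectProduct.inl : N →* N ⋊[φ] Γ) x =
              whMap R (SemidirectProduct.inr : Γ →* N ⋊[φ] Γ) y) →
          ∀ x : WhG R N, x = whMap R (1 : N →* N) x)) ∧
      ∀ m : ℕ, (∀ K : Subgroup Γ, Finite K → Nat.card K ∣ m) →
        CoinvariantsEmbed (whF R) φ m ∧
        ((∀ g : Γ, g ≠ 1 → ¬ IsOfFinOrder g) → OrbitsIndependent (whF R) us) ∧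
        KernelFormulaOver (whF R) us m)) ∧
    (∀ (R : Type) [Ring R] (Γ N V : Type) [Group Γ] [Group N] [MulAction Γ V] (s : Sys Γ N V)
      (C : Set (Finset V)), IsFam Γ C → ∀ q : ℕ, (∀ σ ∈ C, permNo Γ σ ∣ q) →
      KerFormula (whF R) s C q) ∧
    ∀ (Γ X : Type) [Group Γ] [MulAction Γ X] (P : Type) [Group P] (Λ : SimpleGraph X),
      (∀ (γ : Γ) (u v : X), Λ.Adj u v → Λ.Adj (γ • u) (γ • v)) → HasRetractions Γ P Λ :=
  ⟨fun R _ _ _ _ _ _ _ _ us hst =>
      ⟨fun htf => ⟨fun h0 => vanish_zero us (hasPTI_whF R) (contL_whF R) hst (finite_eq_bot htf) h0,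
          fun h0 => vanish us (hasPTI_whF R) (contL_whF R) hst (finite_eq_bot htf) h0⟩,
        fun m hm => ⟨coinvariantsEmbed_of us (hasPTI_whF R) (contL_whF R) hst m hm,
          fun htf => orbitsIndependent_of us (hasPTI_whF R) hst (finite_eq_bot htf),
          kernelFormulaOver_of us (hasPTI_whF R) hst m hm⟩⟩,
    fun R _ _ _ _ _ _ _ s C hC q hq => kerFormula (hasPTI_whF R) s C hC q hq,
    fun Γ _ _ _ P _ Λ hΛ => hasRetractions Γ P Λ hΛ⟩

end Pool.Agent.Results.MP_8f66f0_al.WhiteheadRetractions
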